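import Pool.Agent.Helper33.KV.GoalsF2

/-!
Packet KV-F-H1B (MP_66be51_an): `H^1` bound of a fixed solution from energy conservation.
-/

namespace Pool.Agent.Helper9.KV

open Real MeasureTheory Filter Topology

open Pool.Agent.Helper41.KV Pool.Agent.Helper33.KV

/-- Sup bound. -/
theorem supb {f : ℝ → ℝ} (hf : ContDiff ℝ 1 f) (h0 : MemLp f 2) (h1 : MemLp (deriv f) 2) (y : ℝ) :
    f y ^ 2 ≤ Real.sqrt ((∫ x, deriv f x ^ 2) + 1) * ((∫ x, f x ^ 2) + 1) := by
  have i0 : Integrable (fun x => f x ^ 2) := h0.integrable_sq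
  have i1 : Integrable (fun x => deriv f x ^ 2) := h1.integrable_sq
  have i2 : Integrable (fun x => 2 * (f x * deriv f x)) := (h0.integrable_mul h1).const_mul 2
  have hd : ∀ x, HasDerivAt (fun x => f x ^ 2) (2 * (f x * deriv f x)) x := by
    intro x
    have h2 := ((hf.differentiable one_ne_zero) x).hasDerivAt
    refine (h2.fun_pow 2).congr_deriv ?_
    push_cast
    ring
  have ht : Tendsto (fun x => f x ^ 2) atBot (𝓝 0) :=
    tendsto_zero_of_hasDerivAt_of_integrableOn_Iic (a := y) (fun x _ => hd x) i2.integrableOn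
      i0.integrableOn
  have he : ∫ x in Set.Iic y, 2 * (f x * deriv f x) = f y ^ 2 - 0 :=
    integral_Iic_of_hasDerivAt_of_tendsto' (fun x _ => hd x) i2.integrableOn ht
  have hD0 : 0 ≤ ∫ x, deriv f x ^ 2 := integral_nonneg (fun x => sq_nonneg _)
  set D := ∫ x, deriv f x ^ 2 with hD
  set m := ∫ x, f x ^ 2 with hm
  set s := Real.sqrt (D + 1) with hs
  have hs0 : 0 < s := Real.sqrt_pos.mpr (by linarith)
  have hs2 : s ^ 2 = D + 1 := Real.sq_sqrt (by linarith)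
  have hp : ∀ x, 2 * (f x * deriv f x) ≤ s * f x ^ 2 + s⁻¹ * deriv f x ^ 2 := by
    intro x
    have h3 : 0 ≤ s⁻¹ * (s * f x - deriv f x) ^ 2 := by positivity
    have h4 : s⁻¹ * (s * f x - deriv f x) ^ 2
        = s * f x ^ 2 + s⁻¹ * deriv f x ^ 2 - 2 * (f x * deriv f x) := by
      field_simp
      ring
    linarith
  have i3 : Integrable (fun x => s * f x ^ 2 + s⁻¹ * deriv f x ^ 2) :=
    (i0.const_mul s).add (i1.const_mul s⁻¹)
  calc f y ^ 2 = ∫ x in Set.Iic y, 2 * (f x * deriv f x) := by rw [he]; ring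
    _ ≤ ∫ x in Set.Iic y, (s * f x ^ 2 + s⁻¹ * deriv f x ^ 2) :=
        setIntegral_mono i2.integrableOn i3.integrableOn hp
    _ ≤ ∫ x, (s * f x ^ 2 + s⁻¹ * deriv f x ^ 2) :=
        setIntegral_le_integral i3 (Filter.Eventually.of_forall (fun x => by positivity))
    _ = s * m + s⁻¹ * D := by
        rw [integral_add (i0.const_mul s) (i1.const_mul s⁻¹), integral_const_mul,
          integral_const_mul]
    _ ≤ s * (m + 1) := by
        have h5 : s⁻¹ * D ≤ s := by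
          rw [inv_mul_le_iff₀ hs0]
          nlinarith
        nlinarith

/-- Sixth power. -/
theorem gn6 {f : ℝ → ℝ} (hf : ContDiff ℝ 1 f) (h0 : MemLp f 2) (h1 : MemLp (deriv f) 2) :
    Integrable (fun x => f x ^ 6) ∧ (∫ x, f x ^ 6) ≤
      ((∫ x, deriv f x ^ 2) + 1) * ((∫ x, f x ^ 2) + 1) ^ 2 * ∫ x, f x ^ 2 := by
  have i0 : Integrable (fun x => f x ^ 2) := h0.integrable_sq
  have hD0 : 0 ≤ ∫ x, deriv f x ^ 2 := integral_nonneg (fun x => sq_nonneg _)
  have hm0 : 0 ≤ ∫ x, f x ^ 2 := integral_nonneg (fun x => sq_nonneg _)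
  have hb : ∀ x, f x ^ 6 ≤
      ((∫ x, deriv f x ^ 2) + 1) * ((∫ x, f x ^ 2) + 1) ^ 2 * f x ^ 2 := by
    intro x
    have h2 := supb hf h0 h1 x
    have h3 : (f x ^ 2) ^ 2 ≤
        (Real.sqrt ((∫ x, deriv f x ^ 2) + 1) * ((∫ x, f x ^ 2) + 1)) ^ 2 :=
      pow_le_pow_left₀ (sq_nonneg _) h2 2
    rw [mul_pow, Real.sq_sqrt (by linarith)] at h3
    calc f x ^ 6 = (f x ^ 2) ^ 2 * f x ^ 2 := by ring
      _ ≤ _ := mul_le_mul_of_nonneg_right h3 (sq_nonneg _)
  have i6 : Integrable (fun x => f x ^ 6) := by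
    apply Integrable.mono' (i0.const_mul
      (((∫ x, deriv f x ^ 2) + 1) * ((∫ x, f x ^ 2) + 1) ^ 2))
    · exact (hf.continuous.pow 6).aestronglyMeasurable
    · refine Filter.Eventually.of_forall (fun x => ?_)
      rw [Real.norm_eq_abs, abs_of_nonneg (by positivity)]
      exact hb x
  refine ⟨i6, ?_⟩
  rw [← integral_const_mul]
  exact integral_mono i6 (i0.const_mul _) hb

/-- Scaling. -/
theorem scal {l : ℝ} (hl : 0 < l) (s : ℝ) (g : ℝ → ℝ) :
    (∫ y, g (s + l * y)) = l⁻¹ * ∫ x, g x := by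
  rw [Measure.integral_comp_mul_left (fun z => g (s + z)) l, abs_of_pos (inv_pos.mpr hl),
    integral_add_left_eq_self g s, smul_eq_mul]

theorem scal_int {l : ℝ} (hl : 0 < l) (s : ℝ) {g : ℝ → ℝ} (hg : Integrable g) :
    Integrable (fun y => g (s + l * y)) :=
  (hg.comp_add_left s).comp_mul_left' hl.ne'

/-- Inner variables at a fixed time. -/
theorem inner {l : ℝ} (hl : 0 < l) (s : ℝ) {w : ℝ → ℝ} (hw : ContDiff ℝ 1 w) (h0 : MemLp w 2)
    (h1 : MemLp (deriv w) 2) {I : ℝ → ℝ} (hI : I = fun y => Real.sqrt l * w (s + l * y)) :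
    ContDiff ℝ 1 I ∧ MemLp I 2 ∧ MemLp (deriv I) 2 ∧
      (∫ y, I y ^ 2) = (∫ x, w x ^ 2) ∧ (∫ y, deriv I y ^ 2) = l ^ 2 * (∫ x, deriv w x ^ 2) ∧
      (∫ y, I y ^ 6) = l ^ 2 * ∫ x, w x ^ 6 := by
  have hsl : Real.sqrt l ^ 2 = l := Real.sq_sqrt hl.le
  have hc : ContDiff ℝ 1 I := by
    rw [hI]
    apply contDiff_const.mul
    apply hw.comp
    exact contDiff_const.add (contDiff_const.mul contDiff_id)
  have hd : deriv I = fun y => Real.sqrt l * (l * deriv w (s + l * y)) := by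
    funext y
    have k1 : HasDerivAt (fun y : ℝ => s + l * y) l y := by
      simpa using ((hasDerivAt_id y).const_mul l).const_add s
    have k2 : HasDerivAt w (deriv w (s + l * y)) (s + l * y) :=
      ((hw.differentiable one_ne_zero) _).hasDerivAt
    have k3 : HasDerivAt (fun y => Real.sqrt l * w (s + l * y))
        (Real.sqrt l * (deriv w (s + l * y) * l)) y := (k2.comp y k1).const_mul _
    rw [hI, k3.deriv]
    ring
  have hcd : Continuous (deriv I) := hc.continuous_deriv le_rfl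
  have e0 : (fun y => I y ^ 2) = fun y => l * (fun x => w x ^ 2) (s + l * y) := by
    funext y
    rw [hI]
    simp only
    rw [mul_pow, hsl]
  have e1 : (fun y => deriv I y ^ 2) = fun y => l ^ 3 * (fun x => deriv w x ^ 2) (s + l * y) := by
    funext y
    rw [hd]
    simp only
    rw [mul_pow, mul_pow, hsl]
    ring
  have e6 : (fun y => I y ^ 6) = fun y => l ^ 3 * (fun x => w x ^ 6) (s + l * y) := by
    funext y
    rw [hI]
    simp only
    have : Real.sqrt l ^ 6 = l ^ 3 := by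
      calc Real.sqrt l ^ 6 = (Real.sqrt l ^ 2) ^ 3 := by ring
        _ = l ^ 3 := by rw [hsl]
    rw [mul_pow, this]
  refine ⟨hc, ?_, ?_, ?_, ?_, ?_⟩
  · rw [memLp_two_iff_integrable_sq hc.continuous.aestronglyMeasurable, e0]
    exact (scal_int hl s h0.integrable_sq).const_mul l
  · rw [memLp_two_iff_integrable_sq hcd.aestronglyMeasurable, e1]
    exact (scal_int hl s h1.integrable_sq).const_mul (l ^ 3)
  · rw [e0, integral_const_mul, scal hl s (fun x => w x ^ 2)]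
    field_simp
  · rw [e1, integral_const_mul, scal hl s (fun x => deriv w x ^ 2)]
    field_simp
  · rw [e6, integral_const_mul, scal hl s (fun x => w x ^ 6)]
    field_simp

/-- Class `IsE` is in `L^2` with its derivative. -/
theorem isE_mem (hE : S_ECL1) {F : ℝ → ℝ} (hF : IsE F) :
    ContDiff ℝ 1 F ∧ MemLp F 2 ∧ MemLp (deriv F) 2 := by
  obtain ⟨p1, p2, _, _, _, _, _, _, p9, _, _, _, _, _, _, p16, _⟩ := hE
  have hc : ContDiff ℝ 1 F := hF.1.of_le (by exact_mod_cast le_top)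
  have hF' := p9 F hF
  refine ⟨hc, ?_, ?_⟩
  · rw [memLp_two_iff_integrable_sq hc.continuous.aestronglyMeasurable]
    have := p16 F F (p2 F (p1 F hF)) hF
    refine this.congr (Filter.Eventually.of_forall (fun x => ?_))
    simp only
    ring
  · rw [memLp_two_iff_integrable_sq (hc.continuous_deriv le_rfl).aestronglyMeasurable]
    have := p16 (deriv F) (deriv F) (p2 _ (p1 _ hF')) hF'
    refine this.congr (Filter.Eventually.of_forall (fun x => ?_))
    simp only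
    ring

/-- Linear combinations with coefficients in `[-1,1]`. -/
theorem comb {n : ℕ} (F : Fin n → ℝ → ℝ)
    (hF : ∀ i, ContDiff ℝ 1 (F i) ∧ MemLp (F i) 2 ∧ MemLp (deriv (F i)) 2) (c : Fin n → ℝ)
    (hc : ∀ i, |c i| ≤ 1) :
    ContDiff ℝ 1 (fun y => ∑ i, c i * F i y) ∧ MemLp (fun y => ∑ i, c i * F i y) 2 ∧
      MemLp (deriv (fun y => ∑ i, c i * F i y)) 2 ∧
      (∫ y, (∑ i, c i * F i y) ^ 2) ≤ n * ∑ i, ∫ y, F i y ^ 2 ∧
      (∫ y, deriv (fun y => ∑ i, c i * F i y) y ^ 2) ≤ n * ∑ i, ∫ y, deriv (F i) y ^ 2 := by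
  have hcd : ContDiff ℝ 1 (fun y => ∑ i, c i * F i y) :=
    ContDiff.sum (fun i _ => contDiff_const.mul (hF i).1)
  have hd : deriv (fun y => ∑ i, c i * F i y) = fun y => ∑ i, c i * deriv (F i) y := by
    funext y
    have : HasDerivAt (fun y => ∑ i, c i * F i y) (∑ i, c i * deriv (F i) y) y :=
      HasDerivAt.fun_sum (fun i _ =>
        ((((hF i).1.differentiable one_ne_zero) y).hasDerivAt).const_mul (c i))
    exact this.deriv
  have gen : ∀ G : Fin n → ℝ → ℝ, (∀ i, MemLp (G i) 2) →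
      MemLp (fun y => ∑ i, c i * G i y) 2 ∧
      (∫ y, (∑ i, c i * G i y) ^ 2) ≤ n * ∑ i, ∫ y, G i y ^ 2 := by
    intro G hG
    have m1 : MemLp (fun y => ∑ i, c i * G i y) 2 :=
      memLp_finsetSum _ (fun i _ => (hG i).const_mul (c i))
    refine ⟨m1, ?_⟩
    have i2 : Integrable (fun y => (n : ℝ) * ∑ i, G i y ^ 2) :=
      (integrable_finsetSum _ (fun i _ => (hG i).integrable_sq)).const_mul _
    calc (∫ y, (∑ i, c i * G i y) ^ 2) ≤ ∫ y, (n : ℝ) * ∑ i, G i y ^ 2 := by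
          refine integral_mono m1.integrable_sq i2 (fun y => ?_)
          have h1 := sq_sum_le_card_mul_sum_sq (s := (Finset.univ : Finset (Fin n)))
            (f := fun i => c i * G i y)
          simp only [Finset.card_univ, Fintype.card_fin] at h1
          refine h1.trans ?_
          refine mul_le_mul_of_nonneg_left ?_ (Nat.cast_nonneg n)
          refine Finset.sum_le_sum (fun i _ => ?_)
          rw [mul_pow]
          have h2 : c i ^ 2 ≤ 1 := by
            rw [← sq_abs]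
            have := hc i
            have h0 := abs_nonneg (c i)
            nlinarith
          nlinarith [sq_nonneg (G i y)]
      _ = n * ∑ i, ∫ y, G i y ^ 2 := by
          rw [integral_const_mul, integral_finsetSum _ (fun i _ => (hG i).integrable_sq)]
  have g0 := gen F (fun i => (hF i).2.1)
  have g1 := gen (fun i => deriv (F i)) (fun i => (hF i).2.2)
  refine ⟨hcd, g0.1, ?_, g0.2, ?_⟩
  · rw [hd]; exact g1.1
  · rw [hd]; exact g1.2

/-- Sum of two. -/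
theorem two {f g : ℝ → ℝ} (hf : ContDiff ℝ 1 f) (hg : ContDiff ℝ 1 g) (f0 : MemLp f 2)
    (f1 : MemLp (deriv f) 2) (g0 : MemLp g 2) (g1 : MemLp (deriv g) 2) :
    ContDiff ℝ 1 (fun y => f y + g y) ∧ MemLp (fun y => f y + g y) 2 ∧
      MemLp (deriv (fun y => f y + g y)) 2 ∧
      (∫ y, (f y + g y) ^ 2) ≤ 2 * (∫ y, f y ^ 2) + 2 * ∫ y, g y ^ 2 ∧
      (∫ y, deriv (fun y => f y + g y) y ^ 2) ≤
        2 * (∫ y, deriv f y ^ 2) + 2 * ∫ y, deriv g y ^ 2 := by
  have hd : deriv (fun y => f y + g y) = fun y => deriv f y + deriv g y := by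
    funext y
    exact deriv_add ((hf.differentiable one_ne_zero) y) ((hg.differentiable one_ne_zero) y)
  have gen : ∀ p q : ℝ → ℝ, MemLp p 2 → MemLp q 2 →
      (∫ y, (p y + q y) ^ 2) ≤ 2 * (∫ y, p y ^ 2) + 2 * ∫ y, q y ^ 2 := by
    intro p q hp hq
    have hpq : MemLp (fun y => p y + q y) 2 := hp.add hq
    rw [← integral_const_mul, ← integral_const_mul, ← integral_add
      (hp.integrable_sq.const_mul 2) (hq.integrable_sq.const_mul 2)]
    refine integral_mono hpq.integrable_sq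
      ((hp.integrable_sq.const_mul 2).add (hq.integrable_sq.const_mul 2)) (fun y => ?_)
    simp only
    nlinarith [sq_nonneg (p y - q y)]
  refine ⟨hf.add hg, f0.add g0, ?_, gen f g f0 g0, ?_⟩
  · rw [hd]; exact f1.add g1
  · rw [hd]; exact gen _ _ f1 g1

/-- The five fixed functions spanning all tangent vectors. -/
noncomputable def Fi (α : ℝ) (Z V2 : ℝ → ℝ) : Fin 5 → ℝ → ℝ :=
  ![tauA α Z 0, tauA α Z 1, tauB α Z V2 0, tauB α Z V2 1, tauB α Z V2 (-1)]

/-- The coefficients. -/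
noncomputable def ci (p q ρ : ℝ) : Fin 5 → ℝ :=
  ![p * (1 - ρ), p * ρ, q * (1 - ρ ^ 2), q * ((ρ + ρ ^ 2) / 2), q * ((ρ ^ 2 - ρ) / 2)]

theorem span_eq (α : ℝ) (Z V2 : ℝ → ℝ) (p q ρ y : ℝ) :
    p * tauA α Z ρ y + q * tauB α Z V2 ρ y = ∑ i, ci p q ρ i * Fi α Z V2 i y := by
  simp [Fin.sum_univ_five, ci, Fi, tauA, tauB]
  ring

theorem ci_le {p q ρ : ℝ} (hp : |p| ≤ 1) (hq : |q| ≤ 1) (h0 : 0 ≤ ρ) (h1 : ρ ≤ 1) (i : Fin 5) :
    |ci p q ρ i| ≤ 1 := by
  have key : ∀ x z : ℝ, |x| ≤ 1 → |z| ≤ 1 → |x * z| ≤ 1 := by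
    intro x z hx hz
    rw [abs_mul]
    exact mul_le_one₀ hx (abs_nonneg _) hz
  have hr : 0 ≤ ρ ^ 2 := sq_nonneg _
  have hr2 : ρ ^ 2 ≤ ρ := by nlinarith
  fin_cases i
  · exact key _ _ hp (abs_le.mpr ⟨by linarith, by linarith⟩)
  · exact key _ _ hp (abs_le.mpr ⟨by linarith, by linarith⟩)
  · exact key _ _ hq (abs_le.mpr ⟨by linarith, by linarith⟩)
  · exact key _ _ hq (abs_le.mpr ⟨by linarith, by linarith⟩)
  · exact key _ _ hq (abs_le.mpr ⟨by linarith, by linarith⟩)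

theorem six_add (x z : ℝ) : (x + z) ^ 6 ≤ 32 * x ^ 6 + 32 * z ^ 6 := by
  have h1 : (x + z) ^ 2 ≤ 2 * x ^ 2 + 2 * z ^ 2 := by nlinarith [sq_nonneg (x - z)]
  have h2 : ((x + z) ^ 2) ^ 3 ≤ (2 * x ^ 2 + 2 * z ^ 2) ^ 3 :=
    pow_le_pow_left₀ (sq_nonneg _) h1 3
  have h3 : (2 * x ^ 2 + 2 * z ^ 2) ^ 3 ≤ 32 * (x ^ 2) ^ 3 + 32 * (z ^ 2) ^ 3 := by
    have a0 : 0 ≤ x ^ 2 := sq_nonneg _
    have b0 : 0 ≤ z ^ 2 := sq_nonneg _
    generalize x ^ 2 = a at *
    generalize z ^ 2 = b at *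
    nlinarith [mul_nonneg (add_nonneg a0 b0) (sq_nonneg (a - b))]
  calc (x + z) ^ 6 = ((x + z) ^ 2) ^ 3 := by ring
    _ ≤ _ := h2.trans h3
    _ = _ := by ring

/-- The bound at a fixed time in inner variables. -/
theorem fixed {U V : ℝ → ℝ} {E DV MV m : ℝ} (hU : ContDiff ℝ 1 U) (U0 : MemLp U 2)
    (U1 : MemLp (deriv U) 2) (hV : ContDiff ℝ 1 V) (V0 : MemLp V 2) (V1 : MemLp (deriv V) 2)
    (hDV : (∫ y, deriv V y ^ 2) ≤ DV) (hMV : (∫ y, V y ^ 2) ≤ MV)
    (hm : (∫ y, (U y - V y) ^ 2) ≤ m) (hm2 : m ≤ 1 / 256)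
    (hE : (∫ y, deriv U y ^ 2) ≤ 2 * E + (1 / 3) * ∫ y, U y ^ 6) :
    (∫ y, deriv U y ^ 2) ≤ 3 * E + 16 * ((DV + 1) * (MV + 1) ^ 2 * MV) + DV + 1 := by
  have hVn : ContDiff ℝ 1 (fun y => - V y) := hV.neg
  have dVn : deriv (fun y => - V y) = fun y => - deriv V y := by
    funext y; exact deriv.fun_neg
  have e := two hU hVn U0 U1 V0.neg (by rw [dVn]; exact V1.neg)
  obtain ⟨e1, e2, e3, _, e5⟩ := e
  simp only [dVn, neg_sq] at e5
  have he : (fun y => U y - V y) = fun y => U y + - V y := by funext y; ring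
  have hm' : (∫ y, (U y + - V y) ^ 2) ≤ m := by
    have : (fun y => (U y + - V y) ^ 2) = fun y => (U y - V y) ^ 2 := by funext y; ring
    rw [this]; exact hm
  have g1 := gn6 e1 e2 e3
  have g2 := gn6 hV V0 V1
  have m0 : 0 ≤ ∫ y, (U y + - V y) ^ 2 := integral_nonneg (fun y => sq_nonneg _)
  have M0 : 0 ≤ ∫ y, V y ^ 2 := integral_nonneg (fun y => sq_nonneg _)
  have D0 : 0 ≤ ∫ y, deriv V y ^ 2 := integral_nonneg (fun y => sq_nonneg _)
  have Du0 : 0 ≤ ∫ y, deriv U y ^ 2 := integral_nonneg (fun y => sq_nonneg _)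
  have De0 : 0 ≤ ∫ y, deriv (fun y => U y + - V y) y ^ 2 := integral_nonneg (fun y => sq_nonneg _)
  have h6 : (∫ y, U y ^ 6) ≤ 32 * (∫ y, V y ^ 6) + 32 * ∫ y, (U y + - V y) ^ 6 := by
    rw [← integral_const_mul, ← integral_const_mul, ← integral_add (g2.1.const_mul 32)
      (g1.1.const_mul 32)]
    refine integral_mono (gn6 hU U0 U1).1 ((g2.1.const_mul 32).add (g1.1.const_mul 32))
      (fun y => ?_)
    have := six_add (V y) (U y + - V y)
    have e : V y + (U y + - V y) = U y := by ring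
    rw [e] at this
    exact this
  have hV6 : (∫ y, V y ^ 6) ≤ (DV + 1) * (MV + 1) ^ 2 * MV := by
    refine g2.2.trans ?_
    have k1 : ((∫ y, deriv V y ^ 2) + 1) ≤ DV + 1 := by linarith
    have k2 : ((∫ y, V y ^ 2) + 1) ^ 2 ≤ (MV + 1) ^ 2 :=
      pow_le_pow_left₀ (by linarith) (by linarith) 2
    exact mul_le_mul (mul_le_mul k1 k2 (by positivity) (by linarith)) hMV M0
      (mul_nonneg (by linarith) (sq_nonneg _))
  have he6 : (∫ y, (U y + - V y) ^ 6) ≤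
      (2 * (∫ y, deriv U y ^ 2) + 2 * DV + 1) * 4 * (1 / 256) := by
    refine g1.2.trans ?_
    have k1 : ((∫ y, deriv (fun y => U y + - V y) y ^ 2) + 1) ≤
        2 * (∫ y, deriv U y ^ 2) + 2 * DV + 1 := by linarith
    have k2 : ((∫ y, (U y + - V y) ^ 2) + 1) ^ 2 ≤ 4 := by nlinarith
    have k3 : (∫ y, (U y + - V y) ^ 2) ≤ 1 / 256 := by linarith
    exact mul_le_mul (mul_le_mul k1 k2 (by positivity) (by linarith)) k3 m0
      (mul_nonneg (by linarith) (by norm_num))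
  nlinarith

theorem thm_H1B (hE : S_ECL1) (hC : S_CURVE) (hT : S_TAUB) : S_H1B := by
  refine ⟨1 / 256, by norm_num, ?_⟩
  intro α N0 K T C n Z Y V2 W Wt r r' hα0 hα1 _ hT0 hρT hZ hY hV2 hB t1 E M ht1 ht1T
  obtain ⟨c1, c2, _⟩ := hC α hα0 hα1
  have hinf := (hB.hinf t1 T ht1 ht1T.le le_rfl).1
  obtain ⟨C0, hC0⟩ := hinf.bound 0
  obtain ⟨C1, hC1⟩ := hinf.bound 1
  have hF : ∀ i, ContDiff ℝ 1 (Fi α Z V2 i) ∧ MemLp (Fi α Z V2 i) 2 ∧
      MemLp (deriv (Fi α Z V2 i)) 2 := by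
    have hTB := (hT α Z Y V2 hZ hY hV2).1
    intro i
    fin_cases i
    · exact isE_mem hE (hTB 0).1
    · exact isE_mem hE (hTB 1).1
    · exact isE_mem hE (hTB 0).2.1
    · exact isE_mem hE (hTB 1).2.1
    · exact isE_mem hE (hTB (-1)).2.1
  set A0 := (5 : ℕ) * ∑ i, ∫ y, Fi α Z V2 i y ^ 2 with hA0
  set A1 := (5 : ℕ) * ∑ i, ∫ y, deriv (Fi α Z V2 i) y ^ 2 with hA1
  set DV := 2 * C1 + 2 * A1 with hDV
  set MV := 2 * C0 + 2 * A0 with hMV
  refine ⟨(lam α t1 ^ 2)⁻¹ * (3 * E + 16 * ((DV + 1) * (MV + 1) ^ 2 * MV) + DV + 1), ?_⟩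
  intro u t2 ht12 ht2T hu hEn a b t ht ha hb _ hη
  have ht0 : 0 < t := lt_of_lt_of_le ht1 ht.1
  have htT : t ≤ T := ht.2.trans ht2T
  obtain ⟨s0, l0, r0, hlsr, _⟩ := c1 t ht0
  obtain ⟨s1, l1, r1, _⟩ := c1 t1 ht1
  have hll : lam α t1 ≤ lam α t := (c2 t1 t ht1 ht.1).2.1
  have hr1 : rho α t ≤ 1 := ((c2 t T ht0 htT).2.2).trans hρT
  have hs1 : sig α t ≤ 1 := by
    by_contra h
    have : 1 < rho α t := by
      unfold rho
      exact Real.one_lt_rpow (not_le.mp h) (by linarith)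
    linarith
  have hl1 : lam α t ≤ 1 := by
    rw [hlsr]
    exact mul_le_one₀ hs1 r0.le hr1
  have ht1T' : t ∈ Set.Icc t1 T := ⟨ht.1, htT⟩
  -- the solution
  have hu1 : ContDiff ℝ 1 (u t) := (hu.hinf.smooth t ht).of_le (by exact_mod_cast le_top)
  have hu0 : MemLp (u t) 2 := by simpa using hu.hinf.memLp 0 t ht
  have hu2 : MemLp (deriv (u t)) 2 := by simpa using hu.hinf.memLp 1 t ht
  obtain ⟨U1, U2, U3, _, U5, U6⟩ := inner l0 (sig α t) hu1 hu0 hu2 (I := inn α u t) rfl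
  -- the approximate solution
  have hW1 : ContDiff ℝ 1 (W t) := (hinf.smooth t ht1T').of_le (by exact_mod_cast le_top)
  have hW0 : MemLp (W t) 2 := by simpa using hinf.memLp 0 t ht1T'
  have hW2 : MemLp (deriv (W t)) 2 := by simpa using hinf.memLp 1 t ht1T'
  obtain ⟨w1, w2, w3, w4, w5, _⟩ := inner l0 (sig α t) hW1 hW0 hW2 (I := inn α W t) rfl
  have hC0' : (∫ x, W t x ^ 2) ≤ C0 := by simpa using hC0 t ht1T'
  have hC1' : (∫ x, deriv (W t) x ^ 2) ≤ C1 := by simpa using hC1 t ht1T'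
  -- tangent part
  obtain ⟨τ1, τ2, τ3, τ4, τ5⟩ := comb (Fi α Z V2) hF (ci (a t) (b t) (rho α t))
    (ci_le ha hb r0.le hr1)
  obtain ⟨v1, v2, v3, v4, v5⟩ := two w1 τ1 w2 w3 τ2 τ3
  have hl2 : lam α t ^ 2 ≤ 1 := pow_le_one₀ l0.le hl1
  have W0' : 0 ≤ ∫ x, deriv (W t) x ^ 2 := integral_nonneg (fun y => sq_nonneg _)
  have hD : (∫ y, deriv (fun y => inn α W t y + ∑ i, ci (a t) (b t) (rho α t) i *
      Fi α Z V2 i y) y ^ 2) ≤ DV := by
    refine v5.trans ?_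
    rw [w5]
    have : lam α t ^ 2 * (∫ x, deriv (W t) x ^ 2) ≤ C1 := by nlinarith
    rw [hDV]
    linarith
  have hM : (∫ y, (inn α W t y + ∑ i, ci (a t) (b t) (rho α t) i * Fi α Z V2 i y) ^ 2) ≤ MV := by
    refine v4.trans ?_
    rw [w4, hMV]
    linarith
  have hm : (∫ y, (inn α u t y - (inn α W t y + ∑ i, ci (a t) (b t) (rho α t) i *
      Fi α Z V2 i y)) ^ 2) ≤ 1 / 256 := by
    refine le_trans (le_of_eq ?_) hη
    congr 1
    funext y
    rw [← span_eq]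
    unfold etaI
    ring
  -- energy
  have hE0 := (hEn t ht).1
  have i6 := (gn6 hu1 hu0 hu2).1
  have hsplit : (∫ x, (iteratedDeriv 1 (u t) x ^ 2 / 2 - u t x ^ 6 / 6)) =
      (∫ x, deriv (u t) x ^ 2) / 2 - (∫ x, u t x ^ 6) / 6 := by
    simp only [iteratedDeriv_one]
    rw [integral_sub (hu2.integrable_sq.div_const 2) (i6.div_const 6), integral_div, integral_div]
  rw [hsplit] at hE0
  have hE1 := (abs_le.mp hE0).2
  have hEE : 0 ≤ E := (abs_nonneg _).trans hE0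
  have hen : (∫ y, deriv (inn α u t) y ^ 2) ≤ 2 * E + (1 / 3) * ∫ y, inn α u t y ^ 6 := by
    rw [U5, U6]
    have h1 : lam α t ^ 2 * ((∫ x, deriv (u t) x ^ 2) / 2 - (∫ x, u t x ^ 6) / 6) ≤ E := by
      have k1 : lam α t ^ 2 * ((∫ x, deriv (u t) x ^ 2) / 2 - (∫ x, u t x ^ 6) / 6) ≤
          lam α t ^ 2 * E := mul_le_mul_of_nonneg_left hE1 (sq_nonneg _)
      nlinarith
    linarith
  have hfin := fixed U1 U2 U3 v1 v2 v3 hD hM hm le_rfl hen
  rw [U5] at hfin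
  have hl2' : lam α t1 ^ 2 ≤ lam α t ^ 2 := pow_le_pow_left₀ l1.le hll 2
  have hl1p : 0 < lam α t1 ^ 2 := by positivity
  simp only [iteratedDeriv_one]
  have X0 : 0 ≤ ∫ x, deriv (u t) x ^ 2 := integral_nonneg (fun y => sq_nonneg _)
  rw [inv_mul_eq_div, le_div_iff₀ hl1p]
  nlinarith

end Pool.Agent.Helper9.KV
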